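import Pool.Agent.Helper37.DG.Stmts

set_option autoImplicit false

/-! The decomposition of the congruence pairs with the bound for the energies. -/

namespace Pool.Agent.Helper37.DG

open Finset
open scoped Classical

/-- Chinese remainder theorem for prime moduli -/
theorem lsd_crt (j : ℕ → ℤ) (U : Finset ℕ) : (∀ p ∈ U, p.Prime) → ∃ R : ℤ, ∀ p ∈ U, (p : ℤ) ∣ R - j p := by
  refine Finset.induction_on U ?_ ?_
  · intro _
    exact ⟨0, fun p hp => absurd hp (Finset.notMem_empty p)⟩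
  · intro p U hpU ih hU
    obtain ⟨R, hR⟩ := ih (fun q hq => hU q (Finset.mem_insert_of_mem hq))
    have hp : p.Prime := hU p (Finset.mem_insert_self p U)
    have hcop : IsCoprime (p : ℤ) (∏ q ∈ U, (q : ℤ)) := by
      refine IsCoprime.prod_right fun q hq => ?_
      have hq' : q.Prime := hU q (Finset.mem_insert_of_mem hq)
      have hne : p ≠ q := fun h => hpU (h ▸ hq)
      exact Nat.isCoprime_iff_coprime.mpr ((Nat.coprime_primes hp hq').mpr hne)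
    obtain ⟨u, v, huv⟩ := hcop
    refine ⟨R + v * (∏ q ∈ U, (q : ℤ)) * (j p - R), ?_⟩
    intro q hq
    rcases Finset.mem_insert.mp hq with rfl | hq
    · refine ⟨(R - j q) * u, ?_⟩
      linear_combination (j q - R) * huv
    · have h1 : (q : ℤ) ∣ ∏ q ∈ U, (q : ℤ) := Finset.dvd_prod_of_mem (fun q : ℕ => (q : ℤ)) hq
      have h2 : (q : ℤ) ∣ v * (∏ q ∈ U, (q : ℤ)) * (j p - R) := (h1.mul_left v).mul_right _
      have h3 := dvd_add (hR q hq) h2
      have h4 : R - j q + v * (∏ q ∈ U, (q : ℤ)) * (j p - R) =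
        R + v * (∏ q ∈ U, (q : ℤ)) * (j p - R) - j q := by ring
      rwa [h4] at h3

/-- a row of `P` -/
noncomputable def lsd_row (P : Finset (ℤ × ℤ)) (y : ℤ) : Finset ℤ :=
  (P.filter (fun v => v.2 = y)).image Prod.fst

theorem lsd_injOn (P : Finset (ℤ × ℤ)) (y : ℤ) :
    Set.InjOn Prod.fst ((P.filter (fun v => v.2 = y) : Finset (ℤ × ℤ)) : Set (ℤ × ℤ)) := by
  intro v hv w hw h
  have hv' : v.2 = y := (Finset.mem_filter.mp (Finset.mem_coe.mp hv)).2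
  have hw' : w.2 = y := (Finset.mem_filter.mp (Finset.mem_coe.mp hw)).2
  exact Prod.ext h (hv'.trans hw'.symm)

/-- the sum of a row -/
noncomputable def lsd_rs (P : Finset (ℤ × ℤ)) (y : ℤ) (a q : ℕ) : ℂ :=
  ∑ x ∈ lsd_row P y, Complex.exp (2 * Real.pi * Complex.I * ((a : ℂ) * (x : ℂ) / (q : ℂ)))

theorem lsd_es_le (N M : ℕ) (P : Finset (ℤ × ℤ)) (hP : P ⊆ box N M) (r : ℤ) (a q : ℕ) :
    ‖es P r a q‖ ^ 2 ≤ (M : ℝ) * ∑ y ∈ Finset.Ico (0 : ℤ) (M : ℤ), ‖lsd_rs P y a q‖ ^ 2 := by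
  have hmaps : ∀ v ∈ P, v.2 ∈ Finset.Ico (0 : ℤ) (M : ℤ) := by
    intro v hv
    exact (Finset.mem_product.mp (hP hv)).2
  have hes : es P r a q = ∑ y ∈ Finset.Ico (0 : ℤ) (M : ℤ),
      Complex.exp (2 * Real.pi * Complex.I * ((a : ℂ) * ((r * y : ℤ) : ℂ) / (q : ℂ))) * lsd_rs P y a q := by
    unfold es
    rw [← Finset.sum_fiberwise_of_maps_to hmaps]
    refine Finset.sum_congr rfl fun y _ => ?_
    unfold lsd_rs lsd_row
    rw [Finset.sum_image (lsd_injOn P y), Finset.mul_sum]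
    refine Finset.sum_congr rfl fun v hv => ?_
    have hv' : v.2 = y := (Finset.mem_filter.mp hv).2
    rw [← Complex.exp_add, ← hv']
    congr 1
    push_cast
    ring
  have hn : ‖es P r a q‖ ≤ ∑ y ∈ Finset.Ico (0 : ℤ) (M : ℤ), ‖lsd_rs P y a q‖ := by
    rw [hes]
    refine (norm_sum_le _ _).trans (le_of_eq ?_)
    refine Finset.sum_congr rfl fun y _ => ?_
    rw [norm_mul]
    have : ‖Complex.exp (2 * Real.pi * Complex.I * ((a : ℂ) * ((r * y : ℤ) : ℂ) / (q : ℂ)))‖ = 1 := by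
      have h1 : (2 * Real.pi * Complex.I * ((a : ℂ) * ((r * y : ℤ) : ℂ) / (q : ℂ))) =
        ((2 * Real.pi * ((a : ℝ) * ((r * y : ℤ) : ℝ) / (q : ℝ)) : ℝ) : ℂ) * Complex.I := by
        push_cast
        ring
      rw [h1, Complex.norm_exp_ofReal_mul_I]
    rw [this, one_mul]
  have hcard : ((Finset.Ico (0 : ℤ) (M : ℤ)).card : ℝ) = (M : ℝ) := by
    rw [Int.card_Ico]
    simp
  have hcs := sq_sum_le_card_mul_sum_sq (s := Finset.Ico (0 : ℤ) (M : ℤ)) (f := fun y => ‖lsd_rs P y a q‖)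
  rw [hcard] at hcs
  have h0 : 0 ≤ ‖es P r a q‖ := norm_nonneg _
  calc ‖es P r a q‖ ^ 2 ≤ (∑ y ∈ Finset.Ico (0 : ℤ) (M : ℤ), ‖lsd_rs P y a q‖) ^ 2 :=
        pow_le_pow_left₀ h0 hn 2
    _ ≤ _ := hcs

/-- the energy of a row -/
noncomputable def lsd_re (P : Finset (ℤ × ℤ)) (y : ℤ) (q : ℕ) : ℝ :=
  ∑ a ∈ (Finset.range q).filter (fun a => a.Coprime q), ‖lsd_rs P y a q‖ ^ 2

theorem lsd_re_nonneg (P : Finset (ℤ × ℤ)) (y : ℤ) (q : ℕ) : 0 ≤ lsd_re P y q :=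
  Finset.sum_nonneg fun _ _ => sq_nonneg _

theorem lsd_en_le (N M : ℕ) (P : Finset (ℤ × ℤ)) (hP : P ⊆ box N M) (r : ℤ) (q : ℕ) :
    en P r q ≤ (M : ℝ) * ∑ y ∈ Finset.Ico (0 : ℤ) (M : ℤ), lsd_re P y q := by
  have h1 : en P r q ≤ ∑ a ∈ (Finset.range q).filter (fun a => a.Coprime q),
      (M : ℝ) * ∑ y ∈ Finset.Ico (0 : ℤ) (M : ℤ), ‖lsd_rs P y a q‖ ^ 2 :=
    Finset.sum_le_sum fun a _ => lsd_es_le N M P hP r a q
  refine h1.trans (le_of_eq ?_)
  rw [← Finset.mul_sum, Finset.sum_comm]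
  rfl

theorem lsd_pr_inj (A : Finset ℕ) (hA : ∀ p ∈ A, p.Prime) (U V : Finset ℕ) (hU : U ⊆ A) (hV : V ⊆ A)
    (h : pr U = pr V) : U = V := by
  have h1 : (pr U).primeFactors = U := Nat.primeFactors_prod (fun p hp => hA p (hU hp))
  have h2 : (pr V).primeFactors = V := Nat.primeFactors_prod (fun p hp => hA p (hV hp))
  rw [← h1, ← h2, h]

theorem st_LSD (h1 : ST_LSI) (h2 : ST_FOU) : ST_LSD := by
  obtain ⟨C, hC, hL⟩ := h1
  refine ⟨C, hC, ?_⟩
  intro j N M P A hN hM hP hA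
  have hcrt : ∀ U : Finset ℕ, ∃ R : ℤ, U ⊆ A → ∀ p ∈ U, (p : ℤ) ∣ R - j p := by
    intro U
    by_cases hU : U ⊆ A
    · obtain ⟨R, hR⟩ := lsd_crt j U (fun p hp => hA p (hU hp))
      exact ⟨R, fun _ => hR⟩
    · exact ⟨0, fun h => absurd h hU⟩
  choose R hR using hcrt
  refine ⟨fun U => en P (R U) (pr U), ?_, ?_, ?_, ?_⟩
  · have hpr : pr (∅ : Finset ℕ) = 1 := by simp [pr]
    show en P (R ∅) (pr ∅) = (P.card : ℝ) ^ 2
    rw [hpr]
    have hf : (Finset.range 1).filter (fun a => a.Coprime 1) = {0} := by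
      ext a
      simp
    have hes : es P (R ∅) 0 1 = (P.card : ℂ) := by
      simp [es]
    unfold en
    rw [hf, Finset.sum_singleton, hes]
    simp
  · intro U _
    exact Finset.sum_nonneg fun _ _ => sq_nonneg _
  · intro T hT
    exact h2 j P A R hA (fun U hU p hp => hR U (Finset.mem_powerset.mp hU) p hp) T hT
  · intro Q hQ
    set G : ℕ → ℝ := fun q => (M : ℝ) * ∑ y ∈ Finset.Ico (0 : ℤ) (M : ℤ), lsd_re P y q with hG
    have hG0 : ∀ q, 0 ≤ G q := fun q =>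
      mul_nonneg (Nat.cast_nonneg M) (Finset.sum_nonneg fun y _ => lsd_re_nonneg P y q)
    have s1 : ∑ U ∈ A.powerset.filter (fun U => pr U ≤ Q), en P (R U) (pr U) ≤
        ∑ U ∈ A.powerset.filter (fun U => pr U ≤ Q), G (pr U) :=
      Finset.sum_le_sum fun U _ => lsd_en_le N M P hP (R U) (pr U)
    have s2 : ∑ U ∈ A.powerset.filter (fun U => pr U ≤ Q), G (pr U) =
        ∑ q ∈ (A.powerset.filter (fun U => pr U ≤ Q)).image pr, G q := by
      rw [Finset.sum_image]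
      intro U hU V hV h
      have hU' := Finset.mem_filter.mp (Finset.mem_coe.mp hU)
      have hV' := Finset.mem_filter.mp (Finset.mem_coe.mp hV)
      exact lsd_pr_inj A hA U V (Finset.mem_powerset.mp hU'.1) (Finset.mem_powerset.mp hV'.1) h
    have s3 : ∑ q ∈ (A.powerset.filter (fun U => pr U ≤ Q)).image pr, G q ≤
        ∑ q ∈ Finset.Icc 1 Q, G q := by
      refine Finset.sum_le_sum_of_subset_of_nonneg ?_ (fun q _ _ => hG0 q)
      intro q hq
      obtain ⟨U, hU, rfl⟩ := Finset.mem_image.mp hq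
      have hU' := Finset.mem_filter.mp hU
      refine Finset.mem_Icc.mpr ⟨?_, hU'.2⟩
      exact Finset.prod_pos fun p hp => (hA p (Finset.mem_powerset.mp hU'.1 hp)).pos
    have s4 : ∑ q ∈ Finset.Icc 1 Q, G q =
        (M : ℝ) * ∑ y ∈ Finset.Ico (0 : ℤ) (M : ℤ), ∑ q ∈ Finset.Icc 1 Q, lsd_re P y q := by
      rw [hG, ← Finset.mul_sum, Finset.sum_comm]
    have s5 : ∀ y ∈ Finset.Ico (0 : ℤ) (M : ℤ), ∑ q ∈ Finset.Icc 1 Q, lsd_re P y q ≤
        C * ((N : ℝ) + (Q : ℝ) ^ 2) * ((P.filter (fun v => v.2 = y)).card : ℝ) := by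
      intro y _
      have hsub : lsd_row P y ⊆ Finset.Ico (0 : ℤ) (N : ℤ) := by
        intro x hx
        obtain ⟨v, hv, rfl⟩ := Finset.mem_image.mp hx
        exact (Finset.mem_product.mp (hP (Finset.mem_filter.mp hv).1)).1
      have h3 := hL N Q (lsd_row P y) hN hQ hsub
      have hc : (lsd_row P y).card = (P.filter (fun v => v.2 = y)).card :=
        Finset.card_image_of_injOn (lsd_injOn P y)
      rw [hc] at h3
      exact h3
    have s6 : ∑ y ∈ Finset.Ico (0 : ℤ) (M : ℤ), ∑ q ∈ Finset.Icc 1 Q, lsd_re P y q ≤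
        C * ((N : ℝ) + (Q : ℝ) ^ 2) * P.card := by
      refine (Finset.sum_le_sum s5).trans (le_of_eq ?_)
      rw [← Finset.mul_sum]
      congr 1
      have hmaps : ∀ v ∈ P, v.2 ∈ Finset.Ico (0 : ℤ) (M : ℤ) := by
        intro v hv
        exact (Finset.mem_product.mp (hP hv)).2
      rw [Finset.card_eq_sum_card_fiberwise hmaps]
      push_cast
      rfl
    have hM0 : (0 : ℝ) ≤ (M : ℝ) := Nat.cast_nonneg M
    calc ∑ U ∈ A.powerset.filter (fun U => pr U ≤ Q), en P (R U) (pr U)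
        ≤ ∑ q ∈ Finset.Icc 1 Q, G q := s1.trans (s2 ▸ s3)
      _ = (M : ℝ) * ∑ y ∈ Finset.Ico (0 : ℤ) (M : ℤ), ∑ q ∈ Finset.Icc 1 Q, lsd_re P y q := s4
      _ ≤ (M : ℝ) * (C * ((N : ℝ) + (Q : ℝ) ^ 2) * P.card) := mul_le_mul_of_nonneg_left s6 hM0
      _ = C * (M * ((N : ℝ) + (Q : ℝ) ^ 2)) * P.card := by ring

end Pool.Agent.Helper37.DG
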